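import Mathlib
import Pool.Agent.K80.Main

/-!
# The threshold family `C_c^+` and the touch certificate

`C_S^+(j,k) = [T_j + T_k - (j-k)(T_j-T_k)] X(j,k)
   + ∑_{l ∈ S} {ψ_l(j+1)[1+ψ_l(k)] + ψ_l(k+1)[1+ψ_l(j)]} + ∑_{l ∉ S} {1 - ψ_l(j) ψ_l(k)}`.
If `C_S^+ ≥ 0` for all thresholds `S = {l : y_l < c}`, then the touch certificate holds.
-/

open Finset MeasureTheory

namespace Pool.Agent.R3F65

open Pool.Agent.ST50 Pool.Agent.ST11 Pool.Agent.K80
open B4 hiding cf cf_zero cf_eq_zero cf_pos

lemma step_integrable (p A B a b : ℝ) :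
    IntervalIntegrable (fun u : ℝ => if u < p then A else B) volume a b := by
  have h1 : IntervalIntegrable (fun _ : ℝ => A) volume a b := intervalIntegrable_const
  have h2 : IntervalIntegrable (fun _ : ℝ => B) volume a b := intervalIntegrable_const
  rw [intervalIntegrable_iff] at h1 h2 ⊢
  exact Integrable.piecewise (s := Set.Iio p) measurableSet_Iio h1.integrableOn h2.integrableOn

/-- integral of a two-valued step function -/
lemma integral_step {p A B : ℝ} (h0 : 0 ≤ p) (h1 : p ≤ 1) :
    (∫ u in (0 : ℝ)..1, (if u < p then A else B)) = p * A + (1 - p) * B := by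
  rw [← intervalIntegral.integral_add_adjacent_intervals (step_integrable p A B 0 p)
    (step_integrable p A B p 1)]
  have e1 : (∫ u in (0 : ℝ)..p, (if u < p then A else B)) = ∫ _ in (0 : ℝ)..p, A := by
    refine intervalIntegral.integral_congr_ae ?_
    filter_upwards [Measure.ae_ne volume p] with u hup hu
    rw [Set.uIoc_of_le h0] at hu
    rw [if_pos (lt_of_le_of_ne hu.2 hup)]
  have e2 : (∫ u in p..(1 : ℝ), (if u < p then A else B)) = ∫ _ in p..(1 : ℝ), B := by
    refine intervalIntegral.integral_congr_ae ?_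
    filter_upwards with u hu
    rw [Set.uIoc_of_le h1] at hu
    rw [if_neg (not_lt.mpr hu.1.le)]
  rw [e1, e2, intervalIntegral.integral_const, intervalIntegral.integral_const]
  simp only [smul_eq_mul, sub_zero]

/-- mixture of thresholds -/
lemma mix_threshold (s : Finset ℕ) (p A B : ℕ → ℝ) (R : ℝ) (h0 : ∀ l ∈ s, 0 ≤ p l)
    (h1 : ∀ l ∈ s, p l ≤ 1)
    (H : ∀ u : ℝ, 0 < u → u ≤ 1 → 0 ≤ R + ∑ l ∈ s, (if u < p l then A l else B l)) :
    0 ≤ R + ∑ l ∈ s, (p l * A l + (1 - p l) * B l) := by
  have hi : ∀ l ∈ s, IntervalIntegrable (fun u : ℝ => if u < p l then A l else B l) volume 0 1 :=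
    fun l _ => step_integrable _ _ _ _ _
  have hs : IntervalIntegrable (fun u : ℝ => ∑ l ∈ s, (if u < p l then A l else B l))
      volume 0 1 := by
    have h3 := IntervalIntegrable.sum s hi
    have e3 : (∑ l ∈ s, fun u : ℝ => if u < p l then A l else B l)
        = fun u : ℝ => ∑ l ∈ s, (if u < p l then A l else B l) := by
      funext u
      simp only [Finset.sum_apply]
    rwa [e3] at h3
  have e : ∫ u in (0 : ℝ)..1, (R + ∑ l ∈ s, (if u < p l then A l else B l))
      = R + ∑ l ∈ s, (p l * A l + (1 - p l) * B l) := by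
    rw [intervalIntegral.integral_add intervalIntegrable_const hs,
      intervalIntegral.integral_finsetSum hi, intervalIntegral.integral_const]
    simp only [sub_zero, smul_eq_mul, one_mul]
    rw [Finset.sum_congr rfl (fun l hl => integral_step (h0 l hl) (h1 l hl))]
  rw [← e]
  refine intervalIntegral.integral_nonneg_of_ae_restrict zero_le_one ?_
  filter_upwards [ae_restrict_mem measurableSet_Icc,
    (Measure.ae_ne volume (0 : ℝ)).filter_mono (ae_mono Measure.restrict_le_self)] with u hu hu0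
  exact H u (lt_of_le_of_ne hu.1 (Ne.symm hu0)) hu.2

/-- `ψ_l(k) = 1 - φ_l(k)` -/
noncomputable def psi (s : Finset ℕ) (y : ℕ → ℝ) (l k : ℕ) : ℝ := 1 - phi s y l k

/-- `[T_j + T_k - (j-k)(T_j-T_k)] X(j,k)` -/
noncomputable def R0 (s : Finset ℕ) (y : ℕ → ℝ) (j k : ℕ) : ℝ :=
  (TT s y j + TT s y k - ((j : ℝ) - k) * (TT s y j - TT s y k)) * KX (cf s y) j k

/-- the kernel `C_c^+` -/
noncomputable def CPl (s : Finset ℕ) (y : ℕ → ℝ) (c : ℝ) (j k : ℕ) : ℝ :=
  R0 s y j k + ∑ l ∈ s, (if y l < c then
      psi s y l (j + 1) * (1 + psi s y l k) + psi s y l (k + 1) * (1 + psi s y l j)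
    else 1 - psi s y l j * psi s y l k)

/-- `C_c^+ ≥ 0` for all thresholds `c` -/
def CPlusNonneg (s : Finset ℕ) (y : ℕ → ℝ) : Prop :=
  ∀ c : ℝ, ∀ w : ℕ → ℝ, 0 ≤ ∑ j ∈ range s.card, ∑ k ∈ range s.card, CPl s y c j k * (w j * w k)

lemma psi_succ {s : Finset ℕ} {y : ℕ → ℝ} (hy : ∀ l ∈ s, 0 < y l) {l k : ℕ} (hl : l ∈ s)
    (hk : k < s.card) : psi s y l (k + 1) = y l * (TT s y k * phi s y l k) := by
  have h1 : cf s y (k + 1) ≠ 0 := (cf_pos hy (by omega)).ne'
  have h0 : cf s y k ≠ 0 := (cf_pos hy (by omega)).ne'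
  unfold psi TT phi
  rw [div_mul_div_comm, mul_comm (cf s y k), ← div_mul_div_comm, div_self h0, mul_one,
    eq_comm, ← mul_div_assoc, eq_sub_iff_add_eq, ← add_div, div_eq_one_iff_eq h1,
    cf_succ hl, add_comm]

lemma form_two (n : ℕ) (w a b : ℕ → ℝ) :
    ∑ j ∈ range n, ∑ k ∈ range n, (a j * b k + a k * b j) * (w j * w k)
      = 2 * ((∑ k ∈ range n, w k * a k) * (∑ k ∈ range n, w k * b k)) := by
  have e1 : ∑ j ∈ range n, ∑ k ∈ range n, (a j * b k) * (w j * w k)
      = (∑ k ∈ range n, w k * a k) * (∑ k ∈ range n, w k * b k) := by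
    rw [Finset.sum_mul_sum]
    exact Finset.sum_congr rfl (fun j _ => Finset.sum_congr rfl (fun k _ => by ring))
  have e2 : ∑ j ∈ range n, ∑ k ∈ range n, (a k * b j) * (w j * w k)
      = (∑ k ∈ range n, w k * a k) * (∑ k ∈ range n, w k * b k) := by
    rw [Finset.sum_comm, Finset.sum_mul_sum]
    exact Finset.sum_congr rfl (fun j _ => Finset.sum_congr rfl (fun k _ => by ring))
  rw [two_mul]
  nth_rewrite 1 [← e1]
  rw [← e2, ← Finset.sum_add_distrib]
  refine Finset.sum_congr rfl (fun j _ => ?_)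
  rw [← Finset.sum_add_distrib]
  exact Finset.sum_congr rfl (fun k _ => by ring)

lemma form_one (n : ℕ) (w a b : ℕ → ℝ) :
    ∑ j ∈ range n, ∑ k ∈ range n, (a j * b k) * (w j * w k)
      = (∑ k ∈ range n, w k * a k) * (∑ k ∈ range n, w k * b k) := by
  rw [Finset.sum_mul_sum]
  exact Finset.sum_congr rfl (fun j _ => Finset.sum_congr rfl (fun k _ => by ring))

theorem touch_of_CPlus {s : Finset ℕ} {y : ℕ → ℝ} (hy : ∀ l ∈ s, 0 < y l)
    (H : CPlusNonneg s y) : TouchNonneg s y := by
  intro lam hlam w hw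
  set n := s.card with hn
  set W : ℝ := ∑ k ∈ range n, w k with hW
  set P : ℕ → ℝ := fun l => ∑ k ∈ range n, w k * psi s y l k with hP
  set Pp : ℕ → ℝ := fun l => ∑ k ∈ range n, w k * psi s y l (k + 1) with hPp
  set F : ℕ → ℝ := fun l => ∑ k ∈ range n, w k * phi s y l k with hF
  set R : ℝ := ∑ j ∈ range n, ∑ k ∈ range n, R0 s y j k * (w j * w k) with hR
  have hWPF : ∀ l, W = P l + F l := by
    intro l
    simp only [hW, hP, hF]
    rw [← Finset.sum_add_distrib]
    refine Finset.sum_congr rfl (fun k _ => ?_)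
    unfold psi
    ring
  have hnull : ∀ l ∈ s, Pp l = -(lam * y l * F l) := by
    intro l hl
    have h := hw l hl
    have e : Pp l + lam * y l * F l
        = y l * ∑ k ∈ range n, w k * ((TT s y k + lam) * phi s y l k) := by
      simp only [hPp, hF]
      rw [Finset.mul_sum, Finset.mul_sum, ← Finset.sum_add_distrib]
      refine Finset.sum_congr rfl (fun k hk => ?_)
      rw [psi_succ hy hl (mem_range.mp hk)]
      ring
    rw [h, mul_zero] at e
    linarith
  set A : ℕ → ℝ := fun l => 2 * (Pp l * (W + P l)) with hA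
  set B : ℕ → ℝ := fun l => W * W - P l * P l with hB
  have hform : ∀ c : ℝ, ∑ j ∈ range n, ∑ k ∈ range n, CPl s y c j k * (w j * w k)
      = R + ∑ l ∈ s, (if y l < c then A l else B l) := by
    intro c
    have e1 : ∀ j k, CPl s y c j k * (w j * w k) = R0 s y j k * (w j * w k)
        + ∑ l ∈ s, (if y l < c then
          psi s y l (j + 1) * (1 + psi s y l k) + psi s y l (k + 1) * (1 + psi s y l j)
          else 1 - psi s y l j * psi s y l k) * (w j * w k) := by
      intro j k
      unfold CPl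
      rw [add_mul, Finset.sum_mul]
    simp_rw [e1, Finset.sum_add_distrib]
    congr 1
    rw [Finset.sum_congr rfl (fun j _ => Finset.sum_comm), Finset.sum_comm]
    refine Finset.sum_congr rfl (fun l _ => ?_)
    split_ifs with hc
    · have := form_two n w (fun j => psi s y l (j + 1)) (fun k => 1 + psi s y l k)
      rw [this]
      simp only [hA, hPp, hW, hP]
      congr 2
      rw [← Finset.sum_add_distrib]
      exact Finset.sum_congr rfl (fun k _ => by ring)
    · have e1 := form_one n w (fun _ => 1) (fun _ => 1)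
      have e2 := form_one n w (fun j => psi s y l j) (fun j => psi s y l j)
      simp only [mul_one, one_mul] at e1
      simp only [hB, hW, hP]
      rw [← e1, ← e2, ← Finset.sum_sub_distrib]
      refine Finset.sum_congr rfl (fun j _ => ?_)
      rw [← Finset.sum_sub_distrib]
      exact Finset.sum_congr rfl (fun k _ => by ring)
  set p : ℕ → ℝ := fun l => 1 / (1 + 2 * lam * y l) with hp
  have hpd : ∀ l ∈ s, 0 < 1 + 2 * lam * y l := by
    intro l hl
    have := mul_pos hlam (hy l hl)
    nlinarith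
  have hmix : 0 ≤ R + ∑ l ∈ s, (p l * A l + (1 - p l) * B l) := by
    refine mix_threshold s p A B R ?_ ?_ ?_
    · intro l hl
      exact (one_div_pos.mpr (hpd l hl)).le
    · intro l hl
      rw [hp]
      simp only
      rw [div_le_one (hpd l hl)]
      have := mul_pos hlam (hy l hl)
      nlinarith
    · intro u hu0 hu1
      have h := H ((1 / u - 1) / (2 * lam)) w
      rw [← hn, hform] at h
      have e : ∑ l ∈ s, (if u < p l then A l else B l)
          = ∑ l ∈ s, (if y l < (1 / u - 1) / (2 * lam) then A l else B l) := by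
        refine Finset.sum_congr rfl (fun l hl => ?_)
        have hiff : u < p l ↔ y l < (1 / u - 1) / (2 * lam) := by
          rw [lt_div_iff₀ (by linarith : (0 : ℝ) < 2 * lam)]
          simp only [hp]
          rw [lt_div_iff₀ (hpd l hl), lt_sub_iff_add_lt, lt_div_iff₀ hu0]
          constructor <;> intro h' <;> linarith
        simp only [hiff]
      rw [e]
      exact h
  have hz : ∑ l ∈ s, (p l * A l + (1 - p l) * B l) = 0 := by
    refine Finset.sum_eq_zero (fun l hl => ?_)
    have h1 := hnull l hl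
    have h2 := hWPF l
    have h3 := (hpd l hl).ne'
    simp only [hA, hB, hp]
    rw [h1, h2]
    field_simp
    ring
  rw [hz, add_zero] at hmix
  have hX := KX_nonneg hy w
  have e : ∑ j ∈ range s.card, ∑ k ∈ range s.card, rker s y lam j k * (w j * w k)
      = R + 2 * lam * ∑ j ∈ range s.card, ∑ k ∈ range s.card, KX (cf s y) j k * (w j * w k) := by
    rw [hR, Finset.mul_sum, ← hn, ← Finset.sum_add_distrib]
    refine Finset.sum_congr rfl (fun j _ => ?_)
    rw [Finset.mul_sum, ← Finset.sum_add_distrib]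
    refine Finset.sum_congr rfl (fun k _ => ?_)
    unfold rker R0
    ring
  rw [hn, e]
  have := mul_nonneg (mul_nonneg zero_le_two hlam.le) hX
  linarith

/-- **The threshold family implies the full classification.** -/
theorem touchHyp_of_CPlus (H : ∀ (s : Finset ℕ) (y : ℕ → ℝ), s.Nonempty → (∀ l ∈ s, 0 < y l) →
    CPlusNonneg s y) : TouchHyp :=
  fun s y hs hy => touch_of_CPlus hy (H s y hs hy)

end Pool.Agent.R3F65
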