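import Mathlib
import Pool.Agent.B4.Weight

/-!
# Weight lemma, strict form, for the exponents `0 ≤ θ < 1`
-/

namespace Pool.Agent.R3F65

open Finset MeasureTheory Set Real B4

/-- resolvent step, strict. -/
lemma resolvent_pos (n : ℕ) (T : ℕ → ℝ) (hT : ∀ k < n, 0 < T k) (R : ℕ → ℕ → ℝ)
    (hb : ∀ w : ℕ → ℝ, (∃ k < n, w k ≠ 0) → 0 < ∑ j ∈ range n, ∑ k ∈ range n, w j * w k * R j k)
    (hC : ∀ w : ℕ → ℝ, 0 ≤ ∑ j ∈ range n, ∑ k ∈ range n, w j * w k * (T j * R j k))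
    (c : ℕ → ℝ) (hc : ∃ k < n, c k ≠ 0) (t : ℝ) (ht : 0 < t) :
    0 < ∑ j ∈ range n, ∑ k ∈ range n, c j * c k * (R j k * (t + T k)⁻¹) := by
  obtain ⟨k0, hk0, hck0⟩ := hc
  have h1 := hb (fun j => c j * (t + T j)⁻¹) ⟨k0, hk0, mul_ne_zero hck0
    (inv_ne_zero (by have := hT k0 hk0; positivity))⟩
  have h2 := hC (fun j => c j * (t + T j)⁻¹)
  have h3 : ∑ j ∈ range n, ∑ k ∈ range n, c j * c k * (R j k * (t + T k)⁻¹)
      = t * (∑ j ∈ range n, ∑ k ∈ range n,
          (c j * (t + T j)⁻¹) * (c k * (t + T k)⁻¹) * R j k)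
        + ∑ j ∈ range n, ∑ k ∈ range n,
          (c j * (t + T j)⁻¹) * (c k * (t + T k)⁻¹) * (T j * R j k) := by
    rw [Finset.mul_sum, ← Finset.sum_add_distrib]
    apply Finset.sum_congr rfl; intro j hj
    rw [Finset.mul_sum, ← Finset.sum_add_distrib]
    apply Finset.sum_congr rfl; intro k _
    have hTj := hT j (Finset.mem_range.mp hj)
    have hne : t + T j ≠ 0 := by positivity
    have : (t + T j)⁻¹ * (t + T j) = 1 := inv_mul_cancel₀ hne
    linear_combination (- (c j * c k * (R j k * (t + T k)⁻¹))) * this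
  rw [h3]
  have := mul_pos ht h1
  linarith

/-- the weight lemma, strict form. -/
theorem weight_pos (n : ℕ) (T : ℕ → ℝ) (hT : ∀ k < n, 0 < T k) (R : ℕ → ℕ → ℝ)
    (hb : ∀ w : ℕ → ℝ, (∃ k < n, w k ≠ 0) → 0 < ∑ j ∈ range n, ∑ k ∈ range n, w j * w k * R j k)
    (hC : ∀ w : ℕ → ℝ, 0 ≤ ∑ j ∈ range n, ∑ k ∈ range n, w j * w k * (T j * R j k))
    (θ : ℝ) (hθ0 : 0 ≤ θ) (hθ1 : θ < 1) (c : ℕ → ℝ) (hc : ∃ k < n, c k ≠ 0) :
    0 < ∑ j ∈ range n, ∑ k ∈ range n, c j * c k * (R j k * (T k) ^ (-θ)) := by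
  rcases hθ0.eq_or_lt with h0 | h0
  · have := hb c hc
    rw [← h0]
    simpa using this
  -- θ ∈ (0,1)
  have hp : (1 - θ) ∈ Ioo (0 : ℝ) 1 := ⟨by linarith, by linarith⟩
  obtain ⟨μ, hμ⟩ := Real.exists_measure_rpow_eq_integral_rpowIntegrand₀₁ hp
  have hμpos : 0 < μ (Ioi (0 : ℝ)) := by
    rw [pos_iff_ne_zero]
    intro h
    have h1 := (hμ 1 (Set.mem_Ici.mpr zero_le_one)).2
    rw [Measure.restrict_eq_zero.2 h, integral_zero_measure, Real.one_rpow] at h1
    exact one_ne_zero h1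
  have hrep : ∀ k < n, (T k) ^ (-θ)
      = (T k)⁻¹ * ∫ t in Ioi (0 : ℝ), Real.rpowIntegrand₀₁ (1 - θ) t (T k) ∂μ := by
    intro k hk
    have hTk := hT k hk
    rw [← (hμ (T k) (Set.mem_Ici.mpr hTk.le)).2, ← Real.rpow_neg_one, ← Real.rpow_add hTk]
    congr 1; ring
  have hint1 : ∀ j, ∀ k ∈ range n, Integrable (fun t => (c j * c k * R j k * (T k)⁻¹) *
      Real.rpowIntegrand₀₁ (1 - θ) t (T k)) (μ.restrict (Ioi 0)) := fun j k hk =>
    ((hμ (T k) (Set.mem_Ici.mpr (hT k (Finset.mem_range.mp hk)).le)).1).const_mul _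
  have hint : Integrable (fun t => ∑ j ∈ range n, ∑ k ∈ range n,
      (c j * c k * R j k * (T k)⁻¹) * Real.rpowIntegrand₀₁ (1 - θ) t (T k))
      (μ.restrict (Ioi 0)) := by
    apply MeasureTheory.integrable_finsetSum
    intro j _
    apply MeasureTheory.integrable_finsetSum
    intro k hk
    exact hint1 j k hk
  have hsum : ∑ j ∈ range n, ∑ k ∈ range n, c j * c k * (R j k * (T k) ^ (-θ))
      = ∫ t in Ioi (0 : ℝ), (∑ j ∈ range n, ∑ k ∈ range n,
          (c j * c k * R j k * (T k)⁻¹) * Real.rpowIntegrand₀₁ (1 - θ) t (T k)) ∂μ := by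
    rw [MeasureTheory.integral_finsetSum]
    · apply Finset.sum_congr rfl; intro j _
      rw [MeasureTheory.integral_finsetSum]
      · apply Finset.sum_congr rfl; intro k hk
        rw [MeasureTheory.integral_const_mul, hrep k (Finset.mem_range.mp hk)]
        ring
      · intro k hk
        exact hint1 j k hk
    · intro j _
      apply MeasureTheory.integrable_finsetSum
      intro k hk
      exact hint1 j k hk
  have hval : ∀ t ∈ Ioi (0 : ℝ), 0 < ∑ j ∈ range n, ∑ k ∈ range n,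
      (c j * c k * R j k * (T k)⁻¹) * Real.rpowIntegrand₀₁ (1 - θ) t (T k) := by
    intro t ht
    have ht0 : 0 < t := ht
    have h2 := resolvent_pos n T hT R hb hC c hc t ht0
    have h3 : ∑ j ∈ range n, ∑ k ∈ range n,
        (c j * c k * R j k * (T k)⁻¹) * Real.rpowIntegrand₀₁ (1 - θ) t (T k)
        = t ^ ((1 - θ) - 1) * ∑ j ∈ range n, ∑ k ∈ range n,
          c j * c k * (R j k * (t + T k)⁻¹) := by
      rw [Finset.mul_sum]
      apply Finset.sum_congr rfl; intro j _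
      rw [Finset.mul_sum]
      apply Finset.sum_congr rfl; intro k hk
      have hTk := hT k (Finset.mem_range.mp hk)
      rw [Real.rpowIntegrand₀₁_eq_pow_div hp ht0.le hTk.le]
      have hne : t + T k ≠ 0 := by positivity
      field_simp
    rw [h3]
    exact mul_pos (Real.rpow_pos_of_pos ht0 _) h2
  rw [hsum, MeasureTheory.setIntegral_pos_iff_support_of_nonneg_ae
    ((ae_restrict_iff' measurableSet_Ioi).2 (ae_of_all _ fun t ht => (hval t ht).le)) hint]
  refine lt_of_lt_of_le hμpos (measure_mono fun t ht => ⟨?_, ht⟩)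
  exact (hval t ht).ne'

end Pool.Agent.R3F65
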