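import Mathlib
import Pool.Agent.B4.BO6
import Pool.Agent.ST11.Kernels
import Pool.Agent.ST50.Endgame
import Pool.Agent.R3F65.WeightPos

/-!
# Touch point reduction with the base-2 Bezoutian `X`

`NoEP r` for `2 ≤ r < 3` follows from positivity of
`(2 λ + T_j + T_k - (j-k)(T_j - T_k)) X(j,k)` on the vectors `w` with
`∑ w_k (T_k + λ) φ_l(k) = 0` for all roots `l`, for all `λ > 0`.
-/

open Finset

namespace Pool.Agent.R3F65

open Pool.Agent.H62LR B4 Pool.Agent.ST50 Pool.Agent.ST11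

/-- **Even block**, strict form, for a polynomial without zeros in the closed right half plane. -/
theorem hb_even_pos {N : ℕ} {h : ℕ → ℝ} (hN : h N ≠ 0) (h0 : ∀ m, N < m → h m = 0)
    (hH : ∀ z : ℂ, 0 ≤ z.re → Pool.Agent.H62LR.ev N h z ≠ 0) (n : ℕ) (hn : 2 * n ≤ N)
    (w : ℕ → ℝ) (hw : ∃ k < n, w k ≠ 0) :
    0 < ∑ j ∈ range n, ∑ k ∈ range n, w j * w k *
      BZ (sh (fun i => h (2 * i + 1))) (fun i => h (2 * i)) j k := by
  obtain ⟨L, hL, hspan⟩ := exists_cert_real hN (fun z hz => hH z hz.le)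
  have h1 := KL_form L n w (fun j => 2 * j)
  have h2 : ∑ j ∈ range n, ∑ k ∈ range n, (w j : ℂ) * w k * KL L (2 * j) (2 * k)
      = ((2 * ∑ j ∈ range n, ∑ k ∈ range n, w j * w k *
      BZ (sh (fun i => h (2 * i + 1))) (fun i => h (2 * i)) j k : ℝ) : ℂ) := by
    push_cast
    rw [Finset.mul_sum]
    refine Finset.sum_congr rfl (fun j _ => ?_)
    rw [Finset.mul_sum]
    refine Finset.sum_congr rfl (fun k _ => ?_)
    rw [(KL_even_odd hL h0 k).1 j]
    push_cast
    ring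
  rw [h2] at h1
  have h3 := Complex.ofReal_injective h1
  have h4 := list_sum_nonneg L (fun P => Complex.normSq (∑ j ∈ range n, (w j : ℂ) *
    P.coeff (2 * j))) (fun P => Complex.normSq_nonneg _)
  rw [← h3] at h4
  rcases h4.lt_or_eq with h5 | h5
  · linarith
  exfalso
  rw [← h5] at h3
  have h6 := list_sum_eq_zero L (fun P => Complex.normSq (∑ j ∈ range n, (w j : ℂ) *
    P.coeff (2 * j))) (fun P => Complex.normSq_nonneg _) h3.symm
  have h7 : ∀ P ∈ Submodule.span ℂ {P | P ∈ L}, ∑ j ∈ range n, (w j : ℂ) *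
      P.coeff (2 * j) = 0 := by
    intro P hP
    induction hP using Submodule.span_induction with
    | mem x hx => exact Complex.normSq_eq_zero.1 (h6 x hx)
    | zero => simp
    | add x y _ _ hx hy =>
      simp only [Polynomial.coeff_add, mul_add, Finset.sum_add_distrib]
      rw [hx, hy, add_zero]
    | smul c x _ hx =>
      simp only [Polynomial.coeff_smul, smul_eq_mul]
      have : ∀ j, (w j : ℂ) * (c * x.coeff (2 * j)) = c * ((w j : ℂ) * x.coeff (2 * j)) := by
        intro j; ring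
      simp only [this]
      rw [← Finset.mul_sum, hx, mul_zero]
  obtain ⟨k, hk, hwk⟩ := hw
  have h8 := h7 (Polynomial.X ^ (2 * k)) (hspan hH _ (by
    rw [Polynomial.degree_X_pow]
    exact_mod_cast (by omega : 2 * k < N)))
  rw [Finset.sum_eq_single k] at h8
  · rw [Polynomial.coeff_X_pow, if_pos rfl, mul_one] at h8
    exact hwk (by exact_mod_cast h8)
  · intro j _ hjk
    rw [Polynomial.coeff_X_pow, if_neg (by omega), mul_zero]
  · intro hk'
    exact absurd (Finset.mem_range.2 hk) hk'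

/-- the Bezoutian of `x ∑ a_k a_{k+1} x^k` and `∑ a_k^2 x^k` -/
noncomputable def XH2 (a : ℕ → ℝ) (j k : ℕ) : ℝ :=
  BZ (sh (fun i => a i * a (i + 1))) (fun i => a i ^ 2) j k

/-- its normalisation -/
noncomputable def X2 (a : ℕ → ℝ) (j k : ℕ) : ℝ := XH2 a j k / (a j ^ 2 * a k ^ 2)

lemma BZ_symm' (P Q : ℕ → ℝ) (j k : ℕ) : BZ P Q j k = BZ P Q k j := by
  unfold BZ
  have hN : k + j + 1 = j + k + 1 := by omega
  rw [hN]
  apply antisymm_partial (fun i => (P (j + k + 1 - i) * Q i - P i * Q (j + k + 1 - i)))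
    (j + k + 1) k j (by omega)
  intro v hv
  have h1 : j + k + 1 - (j + k + 1 - v) = v := by omega
  simp only [h1]
  ring

lemma X2_symm (a : ℕ → ℝ) (j k : ℕ) : X2 a j k = X2 a k j := by
  unfold X2 XH2
  rw [BZ_symm', mul_comm (a j ^ 2)]

lemma X2_rec (a : ℕ → ℝ) (j k : ℕ) (hj : a j ≠ 0) (hj1 : a (j + 1) ≠ 0) (hk : a k ≠ 0)
    (hk1 : a (k + 1) ≠ 0) :
    (a k / a (k + 1)) ^ 2 * X2 a (j + 1) k - (a j / a (j + 1)) ^ 2 * X2 a j (k + 1)
      = a k / a (k + 1) - a j / a (j + 1) := by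
  have h1 := BZ_rel (fun i => a i ^ 2) (fun i => a i * a (i + 1)) k j
  have h2 := BZ_rel' (fun i => a i ^ 2) (fun i => a i * a (i + 1)) k j
  have h3 : (a k / a (k + 1)) ^ 2 * X2 a (j + 1) k - (a j / a (j + 1)) ^ 2 * X2 a j (k + 1)
      = (XH2 a (j + 1) k - XH2 a j (k + 1)) / (a (j + 1) ^ 2 * a (k + 1) ^ 2) := by
    unfold X2
    field_simp
  have h4 : XH2 a (j + 1) k - XH2 a j (k + 1) =
      a (j + 1) ^ 2 * (a k * a (k + 1)) - a j * a (j + 1) * a (k + 1) ^ 2 := by
    unfold XH2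
    linear_combination h1 - h2
  rw [h3, h4]
  field_simp

lemma X2_zero (a : ℕ → ℝ) (k : ℕ) (h0 : a 0 ≠ 0) (hk : a k ≠ 0) (hk1 : a (k + 1) ≠ 0) :
    (a k / a (k + 1)) ^ 2 * X2 a 0 k = a k / a (k + 1) := by
  rw [X2_symm]
  unfold X2 XH2
  rw [BZ_zero]
  simp only [sh_succ, sh_zero, zero_mul, sub_zero]
  field_simp

lemma X2_top (a : ℕ → ℝ) (n k : ℕ) (h0 : ∀ i, n < i → a i = 0) : X2 a n k = 0 := by
  unfold X2 XH2 BZ
  rw [Finset.sum_eq_zero, zero_div]
  intro i hi
  have hi' := Finset.mem_range.mp hi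
  have e1 : sh (fun i => a i * a (i + 1)) (n + k + 1 - i) = 0 := by
    obtain ⟨m, hm⟩ : ∃ m, n + k + 1 - i = m + 1 := ⟨n + k - i, by omega⟩
    rw [hm, sh_succ, h0 (m + 1) (by omega), mul_zero]
  beta_reduce
  rw [e1, h0 (n + k + 1 - i) (by omega)]
  ring

/-- the abstract identity at a touch point -/
lemma ep_identity (n : ℕ) (t u W : ℕ → ℝ) (X : ℕ → ℕ → ℝ) (ht0 : t 0 = 0)
    (hsymm : ∀ j k, X j k = X k j)
    (hrec : ∀ j < n, ∀ k < n, t (k + 1) ^ 2 * X (j + 1) k - t (j + 1) ^ 2 * X j (k + 1)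
      = t (k + 1) - t (j + 1))
    (hzero : ∀ k < n, t (k + 1) ^ 2 * X 0 k = t (k + 1))
    (htop : ∀ k < n, X n k = 0)
    (hu : ∀ k < n, t (k + 1) ^ 2 * u (k + 1) = - (u k * W k))
    (h1 : ∑ k ∈ range (n + 1), u k = 0) (h2 : ∑ k ∈ range (n + 1), (k : ℝ) * u k = 0) :
    ∑ j ∈ range n, ∑ k ∈ range n, u j * u k * (((k : ℝ) + 1 - j) * X j k * W k) = 0 := by
  set P := ∑ j ∈ range n, ∑ k ∈ range n, u j * u k * (((k : ℝ) + 1 - j) * X j k * W k) with hP
  set A := ∑ k ∈ range n, ((k : ℝ) + 1) * (u 0 * u (k + 1) * t (k + 1)) with hA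
  set Q := ∑ j ∈ range n, ∑ k ∈ range n,
    ((k : ℝ) - j) * (u (j + 1) * u (k + 1)) * (t (j + 1) ^ 2 * X j (k + 1)) with hQ
  set S := ∑ j ∈ range n, ∑ k ∈ range n,
    ((k : ℝ) - j) * (u (j + 1) * u (k + 1)) * (t (k + 1) - t (j + 1)) with hS
  -- first form of `P`
  have e0 : P = - ∑ j ∈ range (n + 1), ∑ k ∈ range n,
      ((k : ℝ) + 1 - j) * (u j * u (k + 1)) * (t (k + 1) ^ 2 * X j k) := by
    rw [Finset.sum_range_succ]
    have hz : ∑ k ∈ range n, ((k : ℝ) + 1 - n) * (u n * u (k + 1)) * (t (k + 1) ^ 2 * X n k)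
        = 0 := Finset.sum_eq_zero (fun k hk => by
          rw [htop k (Finset.mem_range.mp hk)]; ring)
    rw [hz, add_zero, hP, ← Finset.sum_neg_distrib]
    refine Finset.sum_congr rfl (fun j _ => ?_)
    rw [← Finset.sum_neg_distrib]
    refine Finset.sum_congr rfl (fun k hk => ?_)
    have := hu k (Finset.mem_range.mp hk)
    linear_combination (((k : ℝ) + 1 - j) * u j * X j k) * this
  have hrow0 : ∑ k ∈ range n, ((k : ℝ) + 1 - ((0 : ℕ) : ℝ)) * (u 0 * u (k + 1)) *
      (t (k + 1) ^ 2 * X 0 k) = A := by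
    rw [hA]
    refine Finset.sum_congr rfl (fun k hk => ?_)
    rw [hzero k (Finset.mem_range.mp hk)]
    push_cast
    ring
  have e1 : P = -(A + (S + Q)) := by
    have e : ∑ j ∈ range n, ∑ k ∈ range n, ((k : ℝ) + 1 - ((j + 1 : ℕ) : ℝ)) *
        (u (j + 1) * u (k + 1)) * (t (k + 1) ^ 2 * X (j + 1) k) = S + Q := by
      rw [hS, hQ, ← Finset.sum_add_distrib]
      refine Finset.sum_congr rfl (fun j hj => ?_)
      rw [← Finset.sum_add_distrib]
      refine Finset.sum_congr rfl (fun k hk => ?_)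
      have := hrec j (Finset.mem_range.mp hj) k (Finset.mem_range.mp hk)
      push_cast
      linear_combination (((k : ℝ) - j) * (u (j + 1) * u (k + 1))) * this
    rw [e0, Finset.sum_range_succ', hrow0, e]
    ring
  have e2 : P = -(A - Q) := by
    rw [e0, Finset.sum_range_succ', hrow0]
    have : ∑ j ∈ range n, ∑ k ∈ range n, ((k : ℝ) + 1 - ((j + 1 : ℕ) : ℝ)) *
        (u (j + 1) * u (k + 1)) * (t (k + 1) ^ 2 * X (j + 1) k) = - Q := by
      rw [hQ, Finset.sum_comm, ← Finset.sum_neg_distrib]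
      refine Finset.sum_congr rfl (fun j _ => ?_)
      rw [← Finset.sum_neg_distrib]
      refine Finset.sum_congr rfl (fun k _ => ?_)
      rw [hsymm (k + 1) j]
      push_cast
      ring
    rw [this]
    ring
  -- the sum of the right-hand sides
  have hfull : ∑ j ∈ range (n + 1), ∑ k ∈ range (n + 1),
      ((k : ℝ) - j) * (u j * u k) * (t k - t j) = 0 := by
    have e : ∀ j, ∑ k ∈ range (n + 1), ((k : ℝ) - j) * (u j * u k) * (t k - t j)
        = u j * (∑ k ∈ range (n + 1), (k : ℝ) * u k * t k)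
          - u j * t j * (∑ k ∈ range (n + 1), (k : ℝ) * u k)
          - (j : ℝ) * u j * (∑ k ∈ range (n + 1), u k * t k)
          + (j : ℝ) * u j * t j * (∑ k ∈ range (n + 1), u k) := by
      intro j
      simp only [Finset.mul_sum]
      rw [← Finset.sum_sub_distrib, ← Finset.sum_sub_distrib, ← Finset.sum_add_distrib]
      refine Finset.sum_congr rfl (fun k _ => ?_)
      ring
    rw [Finset.sum_congr rfl (fun j _ => e j)]
    rw [h1, h2]
    simp only [mul_zero, sub_zero, add_zero]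
    rw [Finset.sum_sub_distrib, ← Finset.sum_mul, ← Finset.sum_mul, h1, h2]
    ring
  have e3 : 2 * A + S = 0 := by
    rw [Finset.sum_range_succ'] at hfull
    have r0 : ∑ k ∈ range (n + 1), ((k : ℝ) - ((0 : ℕ) : ℝ)) * (u 0 * u k) * (t k - t 0) = A := by
      rw [Finset.sum_range_succ', hA]
      have : ((((0 : ℕ) : ℝ)) - ((0 : ℕ) : ℝ)) * (u 0 * u 0) * (t 0 - t 0) = 0 := by ring
      rw [this, add_zero]
      refine Finset.sum_congr rfl (fun k _ => ?_)
      rw [ht0]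
      push_cast
      ring
    rw [r0] at hfull
    have r1 : ∑ j ∈ range n, ∑ k ∈ range (n + 1), ((k : ℝ) - ((j + 1 : ℕ) : ℝ)) *
        (u (j + 1) * u k) * (t k - t (j + 1)) = S + A := by
      have : ∀ j, ∑ k ∈ range (n + 1), ((k : ℝ) - ((j + 1 : ℕ) : ℝ)) *
          (u (j + 1) * u k) * (t k - t (j + 1)) =
          ∑ k ∈ range n, ((k : ℝ) - j) * (u (j + 1) * u (k + 1)) * (t (k + 1) - t (j + 1)) +
            ((j : ℝ) + 1) * (u 0 * u (j + 1) * t (j + 1)) := by
        intro j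
        rw [Finset.sum_range_succ']
        congr 1
        · refine Finset.sum_congr rfl (fun k _ => ?_)
          push_cast
          ring
        · rw [ht0]
          push_cast
          ring
      rw [Finset.sum_congr rfl (fun j _ => this j), Finset.sum_add_distrib]
    rw [r1] at hfull
    linarith
  linarith

/-- mixture of resolvents -/
theorem mix_pos (n : ℕ) (T : ℕ → ℝ) (hT : ∀ k < n, 0 < T k) (R : ℕ → ℕ → ℝ) (c : ℕ → ℝ)
    (h : ∀ t : ℝ, 0 < t → 0 < ∑ j ∈ range n, ∑ k ∈ range n, c j * c k * (R j k * (t + T k)⁻¹))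
    (θ : ℝ) (h0 : 0 < θ) (hθ1 : θ < 1) :
    0 < ∑ j ∈ range n, ∑ k ∈ range n, c j * c k * (R j k * (T k) ^ (-θ)) := by
  have hp : (1 - θ) ∈ Set.Ioo (0 : ℝ) 1 := ⟨by linarith, by linarith⟩
  obtain ⟨μ, hμ⟩ := Real.exists_measure_rpow_eq_integral_rpowIntegrand₀₁ hp
  have hμpos : 0 < μ (Set.Ioi (0 : ℝ)) := by
    rw [pos_iff_ne_zero]
    intro h
    have h1 := (hμ 1 (Set.mem_Ici.mpr zero_le_one)).2
    rw [MeasureTheory.Measure.restrict_eq_zero.2 h, MeasureTheory.integral_zero_measure,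
      Real.one_rpow] at h1
    exact one_ne_zero h1
  have hrep : ∀ k < n, (T k) ^ (-θ)
      = (T k)⁻¹ * ∫ t in Set.Ioi (0 : ℝ), Real.rpowIntegrand₀₁ (1 - θ) t (T k) ∂μ := by
    intro k hk
    have hTk := hT k hk
    rw [← (hμ (T k) (Set.mem_Ici.mpr hTk.le)).2, ← Real.rpow_neg_one, ← Real.rpow_add hTk]
    congr 1; ring
  have hint1 : ∀ j, ∀ k ∈ range n, MeasureTheory.Integrable (fun t => (c j * c k * R j k * (T k)⁻¹) *
      Real.rpowIntegrand₀₁ (1 - θ) t (T k)) (μ.restrict (Set.Ioi 0)) := fun j k hk =>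
    ((hμ (T k) (Set.mem_Ici.mpr (hT k (Finset.mem_range.mp hk)).le)).1).const_mul _
  have hint : MeasureTheory.Integrable (fun t => ∑ j ∈ range n, ∑ k ∈ range n,
      (c j * c k * R j k * (T k)⁻¹) * Real.rpowIntegrand₀₁ (1 - θ) t (T k))
      (μ.restrict (Set.Ioi 0)) := by
    apply MeasureTheory.integrable_finsetSum
    intro j _
    apply MeasureTheory.integrable_finsetSum
    intro k hk
    exact hint1 j k hk
  have hsum : ∑ j ∈ range n, ∑ k ∈ range n, c j * c k * (R j k * (T k) ^ (-θ))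
      = ∫ t in Set.Ioi (0 : ℝ), (∑ j ∈ range n, ∑ k ∈ range n,
          (c j * c k * R j k * (T k)⁻¹) * Real.rpowIntegrand₀₁ (1 - θ) t (T k)) ∂μ := by
    rw [MeasureTheory.integral_finsetSum]
    · apply Finset.sum_congr rfl; intro j _
      rw [MeasureTheory.integral_finsetSum]
      · apply Finset.sum_congr rfl; intro k hk
        rw [MeasureTheory.integral_const_mul, hrep k (Finset.mem_range.mp hk)]
        ring
      · intro k hk
        exact hint1 j k hk
    · intro j _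
      apply MeasureTheory.integrable_finsetSum
      intro k hk
      exact hint1 j k hk
  have hval : ∀ t ∈ Set.Ioi (0 : ℝ), 0 < ∑ j ∈ range n, ∑ k ∈ range n,
      (c j * c k * R j k * (T k)⁻¹) * Real.rpowIntegrand₀₁ (1 - θ) t (T k) := by
    intro t ht
    have ht0 : 0 < t := ht
    have h2 := h t ht0
    have h3 : ∑ j ∈ range n, ∑ k ∈ range n,
        (c j * c k * R j k * (T k)⁻¹) * Real.rpowIntegrand₀₁ (1 - θ) t (T k)
        = t ^ ((1 - θ) - 1) * ∑ j ∈ range n, ∑ k ∈ range n,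
          c j * c k * (R j k * (t + T k)⁻¹) := by
      rw [Finset.mul_sum]
      apply Finset.sum_congr rfl; intro j _
      rw [Finset.mul_sum]
      apply Finset.sum_congr rfl; intro k hk
      have hTk := hT k (Finset.mem_range.mp hk)
      rw [Real.rpowIntegrand₀₁_eq_pow_div hp ht0.le hTk.le]
      have hne : t + T k ≠ 0 := by positivity
      field_simp
    rw [h3]
    exact mul_pos (Real.rpow_pos_of_pos ht0 _) h2
  rw [hsum, MeasureTheory.setIntegral_pos_iff_support_of_nonneg_ae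
    ((MeasureTheory.ae_restrict_iff' measurableSet_Ioi).2
      (MeasureTheory.ae_of_all _ fun t ht => (hval t ht).le)) hint]
  refine lt_of_lt_of_le hμpos (MeasureTheory.measure_mono fun t ht => ⟨?_, ht⟩)
  exact (hval t ht).ne'

end Pool.Agent.R3F65
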