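import Mathlib
import Pool.Agent.R3F65.EPX

/-!
# Touch point reduction: `VHyp ⇒ NoEP r` for `2 ≤ r < 3`, hence all real powers `r ≥ 2`
-/

open Finset

namespace Pool.Agent.R3F65

open Pool.Agent.H62LR Pool.Agent.ST50 Pool.Agent.ST11

/-- `T_k = a_k / a_{k+1}` -/
noncomputable def TT (s : Finset ℕ) (y : ℕ → ℝ) (k : ℕ) : ℝ := cf s y k / cf s y (k + 1)

/-- `φ_l(k) = a^{(l)}_k / a_k` -/
noncomputable def ph (s : Finset ℕ) (y : ℕ → ℝ) (l k : ℕ) : ℝ := cf (s.erase l) y k / cf s y k

/-- `(2λ + T_j + T_k - (j-k)(T_j - T_k)) X(j,k)` -/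
noncomputable def RL (s : Finset ℕ) (y : ℕ → ℝ) (lam : ℝ) (j k : ℕ) : ℝ :=
  (2 * lam + TT s y j + TT s y k - ((j : ℝ) - k) * (TT s y j - TT s y k)) * X2 (cf s y) j k

/-- positivity on the vectors orthogonal to all `(T + λ) φ_l` -/
def VHyp : Prop :=
  ∀ (s : Finset ℕ) (y : ℕ → ℝ), s.Nonempty → (∀ l ∈ s, 0 < y l) → ∀ lam : ℝ, 0 < lam →
    ∀ w : ℕ → ℝ, (∃ k < s.card, w k ≠ 0) →
      (∀ l ∈ s, ∑ k ∈ range s.card, w k * ((TT s y k + lam) * ph s y l k) = 0) →
      0 < ∑ j ∈ range s.card, ∑ k ∈ range s.card, w j * w k * RL s y lam j k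

/-- the Lagrange form: a multiplier `u_l` for every root `l` -/
def LHyp : Prop :=
  ∀ (s : Finset ℕ) (y : ℕ → ℝ), s.Nonempty → (∀ l ∈ s, 0 < y l) → ∀ lam : ℝ, 0 < lam →
    ∃ u : ℕ → ℕ → ℝ, ∀ w : ℕ → ℝ, (∃ k < s.card, w k ≠ 0) →
      0 < ∑ j ∈ range s.card, ∑ k ∈ range s.card, w j * w k *
        (RL s y lam j k + ∑ l ∈ s, ((TT s y j + lam) * ph s y l j * u l k +
          (TT s y k + lam) * ph s y l k * u l j))

lemma null_form {n : ℕ} {w p q : ℕ → ℝ} (h : ∑ k ∈ range n, w k * p k = 0) :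
    ∑ j ∈ range n, ∑ k ∈ range n, w j * w k * (p j * q k + p k * q j) = 0 := by
  have e : ∀ j, ∑ k ∈ range n, w j * w k * (p j * q k + p k * q j) =
      w j * p j * (∑ k ∈ range n, w k * q k) + w j * q j * (∑ k ∈ range n, w k * p k) := by
    intro j
    rw [Finset.mul_sum, Finset.mul_sum, ← Finset.sum_add_distrib]
    exact Finset.sum_congr rfl (fun k _ => by ring)
  rw [Finset.sum_congr rfl (fun j _ => e j), h]
  simp only [mul_zero, add_zero]
  rw [← Finset.sum_mul, h, zero_mul]

theorem vHyp_of_lHyp (H : LHyp) : VHyp := by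
  intro s y hs hy lam hlam w hw hV
  obtain ⟨u, hu⟩ := H s y hs hy lam hlam
  have h1 := hu w hw
  have h2 : ∑ j ∈ range s.card, ∑ k ∈ range s.card, w j * w k *
        (∑ l ∈ s, ((TT s y j + lam) * ph s y l j * u l k +
          (TT s y k + lam) * ph s y l k * u l j)) = 0 := by
    have e : ∑ j ∈ range s.card, ∑ k ∈ range s.card, w j * w k *
        (∑ l ∈ s, ((TT s y j + lam) * ph s y l j * u l k +
          (TT s y k + lam) * ph s y l k * u l j)) =
        ∑ l ∈ s, ∑ j ∈ range s.card, ∑ k ∈ range s.card, w j * w k *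
          ((TT s y j + lam) * ph s y l j * u l k + (TT s y k + lam) * ph s y l k * u l j) := by
      rw [Finset.sum_comm (s := s)]
      refine Finset.sum_congr rfl (fun j _ => ?_)
      rw [Finset.sum_comm (s := s)]
      refine Finset.sum_congr rfl (fun k _ => ?_)
      rw [Finset.mul_sum]
    rw [e]
    exact Finset.sum_eq_zero (fun l hl => null_form (hV l hl))
  refine h1.trans_eq ?_
  rw [← sub_eq_zero, ← Finset.sum_sub_distrib, ← h2]
  refine Finset.sum_congr rfl (fun j _ => ?_)
  rw [← Finset.sum_sub_distrib]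
  refine Finset.sum_congr rfl (fun k _ => ?_)
  ring

/-- the kernel `X` is positive definite -/
lemma X2_pos {s : Finset ℕ} {y : ℕ → ℝ} (hy : ∀ l ∈ s, 0 < y l) (w : ℕ → ℝ)
    (hw : ∃ k < s.card, w k ≠ 0) :
    0 < ∑ j ∈ range s.card, ∑ k ∈ range s.card, w j * w k * X2 (cf s y) j k := by
  set m : Multiset ℝ := s.val.map y with hm
  have hcf : ∀ k, B4.cf m k = cf s y k := by
    intro k
    unfold B4.cf cf pr
    rw [hm, Multiset.map_map]
    rfl
  have hcard : Multiset.card m = s.card := by rw [hm, Multiset.card_map]; rfl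
  have hpos : ∀ ρ ∈ m, 0 < ρ := by
    intro ρ hρ
    obtain ⟨l, hl, rfl⟩ := Multiset.mem_map.1 hρ
    exact hy l hl
  have hH := B4.hur_Z hpos
  rw [hcard] at hH
  set e : ℕ → ℝ := fun k => B4.cf m k ^ 2 with he
  set o : ℕ → ℝ := fun k => B4.cf m k * B4.cf m (k + 1) with ho
  have hcz : ∀ k, s.card < k → B4.cf m k = 0 := fun k hk => B4.cf_eq_zero m (by rw [hcard]; exact hk)
  have hN : B4.ilv e o (2 * s.card) ≠ 0 := by
    rw [B4.ilv_even, he]
    simp only
    rw [hcf]
    exact pow_ne_zero 2 (cf_pos hy le_rfl).ne'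
  have h0 : ∀ k, 2 * s.card < k → B4.ilv e o k = 0 := by
    refine B4.ilv_eq_zero (fun k hk => ?_) (fun k hk => ?_)
    · simp only [he]
      rw [hcz k hk]
      ring
    · simp only [ho]
      rw [hcz (k + 1) (by omega)]
      ring
  obtain ⟨k0, hk0, hwk0⟩ := hw
  have h1 := hb_even_pos hN h0 hH s.card le_rfl (fun k => w k / cf s y k ^ 2)
    ⟨k0, hk0, div_ne_zero hwk0 (pow_ne_zero 2 (cf_pos hy hk0.le).ne')⟩
  refine h1.trans_eq ?_
  have e1 : (fun i => B4.ilv e o (2 * i + 1)) = fun i => cf s y i * cf s y (i + 1) := by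
    funext i
    rw [B4.ilv_odd]
    simp only [ho, hcf]
  have e2 : (fun i => B4.ilv e o (2 * i)) = fun i => cf s y i ^ 2 := by
    funext i
    rw [B4.ilv_even]
    simp only [he, hcf]
  rw [e1, e2]
  refine Finset.sum_congr rfl (fun j hj => ?_)
  refine Finset.sum_congr rfl (fun k hk => ?_)
  have hj' := cf_pos hy (Finset.mem_range.mp hj).le
  have hk' := cf_pos hy (Finset.mem_range.mp hk).le
  unfold X2 XH2
  field_simp

/-- **Touch point reduction.** -/
theorem noEP_of_vHyp (H : VHyp) {r : ℝ} (hr : 2 ≤ r) (hr3 : r < 3) : NoEP r := by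
  intro s y hy h1 h2
  rcases s.eq_empty_or_nonempty with hs | hs
  · subst hs
    simp only [Finset.card_empty, zero_add, Finset.range_one, Finset.sum_singleton, pow_zero,
      one_mul, cf_zero, Real.one_rpow] at h1
    exact one_ne_zero h1
  set n := s.card with hn
  have hn0 : 0 < n := Finset.card_pos.2 hs
  set a : ℕ → ℝ := cf s y with ha
  have hpos : ∀ k ≤ n, 0 < a k := fun k hk => cf_pos hy hk
  have hz : ∀ i, n < i → a i = 0 := fun i hi => cf_eq_zero y hi
  set u : ℕ → ℝ := fun k => (-1 : ℝ) ^ k * a k ^ r with hu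
  set θ := r - 2 with hθ
  set T : ℕ → ℝ := fun k => a k / a (k + 1) with hT
  have hTpos : ∀ k < n, 0 < T k := fun k hk => div_pos (hpos k hk.le) (hpos (k + 1) hk)
  -- `u_k = (-1)^k a_k^(r-1) a_k`
  have hrp : ∀ k ≤ n, a k ^ r = a k ^ (r - 1) * a k := by
    intro k hk
    rw [← Real.rpow_add_one (hpos k hk).ne']
    congr 1; ring
  have hpsi : ∀ l ∈ s, ∑ k ∈ range (n + 1), (-1 : ℝ) ^ k * a k ^ (r - 1) * cl s y l k = 0 := by
    intro l hl
    rw [Finset.sum_range_succ', cl_zero, mul_zero, add_zero]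
    have : ∀ k, (-1 : ℝ) ^ (k + 1) * a (k + 1) ^ (r - 1) * cl s y l (k + 1) =
        - y l * ((-1 : ℝ) ^ k * (a (k + 1) ^ (r - 1) * cf (s.erase l) y k)) := by
      intro k
      rw [cl_succ hl, pow_succ]
      ring
    rw [Finset.sum_congr rfl (fun k _ => this k), ← Finset.mul_sum, h2 l hl, mul_zero]
  have hk0 : ∑ k ∈ range (n + 1), (k : ℝ) * u k = 0 := by
    have : ∀ k ∈ range (n + 1), (k : ℝ) * u k =
        ∑ l ∈ s, (-1 : ℝ) ^ k * a k ^ (r - 1) * cl s y l k := by
      intro k hk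
      have hk' : k ≤ n := by simpa [Nat.lt_succ_iff] using hk
      rw [← Finset.mul_sum, sum_cl]
      simp only [hu]
      rw [hrp k hk']
      ring
    rw [Finset.sum_congr rfl this, Finset.sum_comm]
    exact Finset.sum_eq_zero (fun l hl => hpsi l hl)
  have hphi : ∀ l ∈ s, ∑ k ∈ range n, u k * ph s y l k = 0 := by
    intro l hl
    have e1 : ∑ k ∈ range (n + 1), (-1 : ℝ) ^ k * a k ^ (r - 1) * cf (s.erase l) y k = 0 := by
      have : ∀ k ∈ range (n + 1), (-1 : ℝ) ^ k * a k ^ (r - 1) * cf (s.erase l) y k =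
          u k - (-1 : ℝ) ^ k * a k ^ (r - 1) * cl s y l k := by
        intro k hk
        have hk' : k ≤ n := by simpa [Nat.lt_succ_iff] using hk
        simp only [hu]
        rw [hrp k hk']
        unfold cl
        ring
      rw [Finset.sum_congr rfl this, Finset.sum_sub_distrib, hpsi l hl, sub_zero]
      exact h1
    rw [Finset.sum_range_succ, cf_eq_zero (s := s.erase l) y (k := n) (by
      rw [Finset.card_erase_of_mem hl]; omega), mul_zero, add_zero] at e1
    rw [← e1]
    refine Finset.sum_congr rfl (fun k hk => ?_)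
    have hk' := (Finset.mem_range.mp hk).le
    have := (hpos k hk').ne'
    unfold ph
    simp only [hu]
    rw [hrp k hk']
    show (-1 : ℝ) ^ k * (a k ^ (r - 1) * a k) * (cf (s.erase l) y k / a k) = _
    field_simp
  -- the identity
  set t : ℕ → ℝ := fun k => if k = 0 then 0 else a (k - 1) / a k with ht
  have ht1 : ∀ k, t (k + 1) = a k / a (k + 1) := by
    intro k
    simp only [ht]
    rw [if_neg (Nat.succ_ne_zero k)]
    simp
  have key := ep_identity n t u (fun k => T k ^ (-θ)) (X2 a) (by simp [ht]) (X2_symm a) ?_ ?_ ?_ ?_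
    (by rw [← h1]) hk0
  · -- contradiction
    rcases hr.eq_or_lt with h2' | h2'
    · -- r = 2
      have hθ0 : θ = 0 := by rw [hθ, ← h2']; ring
      have hX := X2_pos hy u ⟨0, hn0, by
        simp only [hu, pow_zero, one_mul]
        exact (Real.rpow_pos_of_pos (hpos 0 (Nat.zero_le _)) r).ne'⟩
      have e : ∑ j ∈ range n, ∑ k ∈ range n, u j * u k * (((k : ℝ) + 1 - j) * X2 a j k * T k ^ (-θ))
          = ∑ j ∈ range n, ∑ k ∈ range n, u j * u k * X2 a j k := by
        rw [hθ0]
        simp only [neg_zero, Real.rpow_zero, mul_one]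
        rw [B4.sum_symm n u (fun j k => ((k : ℝ) + 1 - j) * X2 a j k)]
        refine Finset.sum_congr rfl (fun j _ => ?_)
        refine Finset.sum_congr rfl (fun k _ => ?_)
        rw [X2_symm a k j]
        ring
      rw [e] at key
      exact hX.ne' key
    · have hθ0 : 0 < θ := by rw [hθ]; linarith
      have hθ1 : θ < 1 := by rw [hθ]; linarith
      have hmix := mix_pos n T hTpos (fun j k => ((k : ℝ) + 1 - j) * X2 a j k) u ?_ θ hθ0 hθ1
      · refine hmix.ne' ?_
        rw [← key]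
      · intro lam hlam
        have hne : ∀ k < n, lam + T k ≠ 0 := fun k hk => by
          have := hTpos k hk
          positivity
        have hV := H s y hs hy lam hlam (fun k => u k * (lam + T k)⁻¹) ⟨0, hn0,
          mul_ne_zero (by
            simp only [hu, pow_zero, one_mul]
            exact (Real.rpow_pos_of_pos (hpos 0 (Nat.zero_le _)) r).ne')
            (inv_ne_zero (hne 0 hn0))⟩ (fun l hl => by
              rw [← hphi l hl]
              refine Finset.sum_congr rfl (fun k hk => ?_)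
              have := hne k (Finset.mem_range.mp hk)
              have e3 : TT s y k + lam = lam + T k := by
                simp only [hT]; unfold TT; rw [add_comm]
              rw [e3]
              field_simp)
        have e : ∑ j ∈ range n, ∑ k ∈ range n,
            (u j * (lam + T j)⁻¹) * (u k * (lam + T k)⁻¹) * RL s y lam j k
            = 2 * ∑ j ∈ range n, ∑ k ∈ range n,
              u j * u k * ((((k : ℝ) + 1 - j) * X2 a j k) * (lam + T k)⁻¹) := by
          rw [B4.sum_symm n u (fun j k => (((k : ℝ) + 1 - j) * X2 a j k) * (lam + T k)⁻¹),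
            Finset.mul_sum]
          refine Finset.sum_congr rfl (fun j hj => ?_)
          rw [Finset.mul_sum]
          refine Finset.sum_congr rfl (fun k hk => ?_)
          have hj' := hne j (Finset.mem_range.mp hj)
          have hk' := hne k (Finset.mem_range.mp hk)
          rw [X2_symm a k j]
          unfold RL TT
          show u j * (lam + a j / a (j + 1))⁻¹ * (u k * (lam + a k / a (k + 1))⁻¹) *
            ((2 * lam + a j / a (j + 1) + a k / a (k + 1) -
              ((j : ℝ) - k) * (a j / a (j + 1) - a k / a (k + 1))) * X2 a j k) =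
            2 * (u j * u k * ((((k : ℝ) + 1 - j) * X2 a j k * (lam + a k / a (k + 1))⁻¹ +
              ((j : ℝ) + 1 - k) * X2 a j k * (lam + a j / a (j + 1))⁻¹) / 2))
          have hj2 : lam + a j / a (j + 1) ≠ 0 := hj'
          have hk2 : lam + a k / a (k + 1) ≠ 0 := hk'
          generalize a j / a (j + 1) = Tj at hj2 ⊢
          generalize a k / a (k + 1) = Tk at hk2 ⊢
          field_simp
          ring
        have hV' : 0 < ∑ j ∈ range n, ∑ k ∈ range n,
            (u j * (lam + T j)⁻¹) * (u k * (lam + T k)⁻¹) * RL s y lam j k := hV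
        rw [e] at hV'
        linarith
  · intro j hj k hk
    rw [ht1, ht1]
    exact X2_rec a j k (hpos j hj.le).ne' (hpos (j + 1) hj).ne' (hpos k hk.le).ne'
      (hpos (k + 1) hk).ne'
  · intro k hk
    rw [ht1]
    exact X2_zero a k (hpos 0 (Nat.zero_le n)).ne' (hpos k hk.le).ne' (hpos (k + 1) hk).ne'
  · intro k _
    exact X2_top a n k hz
  · intro k hk
    rw [ht1]
    have hak := hpos k hk.le
    have hak1 := hpos (k + 1) hk
    simp only [hu, hT]
    rw [Real.div_rpow hak.le hak1.le, Real.rpow_neg hak.le, Real.rpow_neg hak1.le]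
    have e1 : a k ^ r = a k ^ θ * a k ^ 2 := by
      rw [← Real.rpow_natCast (a k) 2, ← Real.rpow_add hak]
      congr 1; rw [hθ]; push_cast; ring
    have e2 : a (k + 1) ^ r = a (k + 1) ^ θ * a (k + 1) ^ 2 := by
      rw [← Real.rpow_natCast (a (k + 1)) 2, ← Real.rpow_add hak1]
      congr 1; rw [hθ]; push_cast; ring
    rw [e1, e2]
    have h3 : a k ^ θ ≠ 0 := (Real.rpow_pos_of_pos hak θ).ne'
    have h4 : a (k + 1) ^ θ ≠ 0 := (Real.rpow_pos_of_pos hak1 θ).ne'
    field_simp
    ring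

/-- all real powers `r ≥ 2` -/
theorem pf_rpow_of_vHyp (H : VHyp) {n : ℕ} {a : ℕ → ℝ} (ha : PF n a) {r : ℝ} (hr : 2 ≤ r) :
    PF n (fun k => a k ^ r) :=
  Pool.Agent.ST50.pf_rpow (fun _ h2 h3 => noEP_of_vHyp H h2 h3) ha hr

theorem preserves_of_vHyp (H : VHyp) {r c : ℝ} (hr : 2 ≤ r) (hc : 0 < c) :
    Pool.Agent.H49.RR.Preserves (fun t => c * t ^ r) :=
  Pool.Agent.ST50.preserves_rpow (fun _ h2 h3 => noEP_of_vHyp H h2 h3) hr hc

end Pool.Agent.R3F65
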