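import Mathlib
import Pool.Agent.R3F65.EPMain

/-!
# Concrete certificates that imply `VHyp`

* `KHyp`: `R_λ(j,k) + F_λ(j) + F_λ(k) > 0`, `F_λ(j) = ∑_l y_l (T_j+λ) φ_l(j) / (1 + λ y_l)`.
* `StarHyp2`: `(T_j+T_k+2λ) M - (j-k)(T_j-T_k) X + c ∑_l y_l d_l (T_j+λ)(T_k+λ) φ_l φ_l' ≥ 0`,
  `d_l = y_l / (1 + λ y_l)`, together with `(T_j + T_k) X ≥ 0`.
-/

open Finset

namespace Pool.Agent.R3F65

open Pool.Agent.H62LR Pool.Agent.ST50 Pool.Agent.ST11

/-- `F_λ` -/
noncomputable def FL (s : Finset ℕ) (y : ℕ → ℝ) (lam : ℝ) (j : ℕ) : ℝ :=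
  ∑ l ∈ s, y l * (TT s y j + lam) * ph s y l j / (1 + lam * y l)

/-- the inequality `(K_λ)`, strict form -/
def KHyp : Prop :=
  ∀ (s : Finset ℕ) (y : ℕ → ℝ), s.Nonempty → (∀ l ∈ s, 0 < y l) → ∀ lam : ℝ, 0 < lam →
    ∀ w : ℕ → ℝ, (∃ k < s.card, w k ≠ 0) →
      0 < ∑ j ∈ range s.card, ∑ k ∈ range s.card, w j * w k *
        (RL s y lam j k + FL s y lam j + FL s y lam k)

theorem lHyp_of_kHyp (H : KHyp) : LHyp := by
  intro s y hs hy lam hlam
  refine ⟨fun l _ => y l / (1 + lam * y l), fun w hw => ?_⟩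
  refine (H s y hs hy lam hlam w hw).trans_eq ?_
  refine Finset.sum_congr rfl (fun j _ => ?_)
  refine Finset.sum_congr rfl (fun k _ => ?_)
  unfold FL
  rw [add_assoc, ← Finset.sum_add_distrib]
  congr 2
  refine Finset.sum_congr rfl (fun l _ => ?_)
  ring

/-- `(T_j + T_k) X ≥ 0` -/
def P1Hyp : Prop :=
  ∀ (s : Finset ℕ) (y : ℕ → ℝ), s.Nonempty → (∀ l ∈ s, 0 < y l) →
    ∀ w : ℕ → ℝ, 0 ≤ ∑ j ∈ range s.card, ∑ k ∈ range s.card, w j * w k *
        ((TT s y j + TT s y k) * X2 (cf s y) j k)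

/-- `(STAR_λ)`, with a constant that may depend on everything -/
def StarHyp2 : Prop :=
  ∀ (s : Finset ℕ) (y : ℕ → ℝ), s.Nonempty → (∀ l ∈ s, 0 < y l) → ∀ lam : ℝ, 0 < lam →
    ∃ c : ℝ, ∀ w : ℕ → ℝ, 0 ≤ ∑ j ∈ range s.card, ∑ k ∈ range s.card, w j * w k *
        ((∑ l ∈ s, y l * (ph s y l j * ph s y l k) *
            ((TT s y j + lam) + (TT s y k + lam) +
              c * (y l / (1 + lam * y l)) * ((TT s y j + lam) * (TT s y k + lam))))
          - ((j : ℝ) - k) * (TT s y j - TT s y k) * X2 (cf s y) j k)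

theorem vHyp_of_star (H1 : P1Hyp) (H2 : StarHyp2) : VHyp := by
  intro s y hs hy lam hlam w hw hV
  obtain ⟨c, hc⟩ := H2 s y hs hy lam hlam
  have h1 := H1 s y hs hy w
  have h2 := hc w
  have h3 := X2_pos hy w hw
  have h4 : ∑ j ∈ range s.card, ∑ k ∈ range s.card, w j * w k *
      (∑ l ∈ s, y l * (ph s y l j * ph s y l k) *
            ((TT s y j + lam) + (TT s y k + lam) +
              c * (y l / (1 + lam * y l)) * ((TT s y j + lam) * (TT s y k + lam)))) = 0 := by
    have e : ∑ j ∈ range s.card, ∑ k ∈ range s.card, w j * w k *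
        (∑ l ∈ s, y l * (ph s y l j * ph s y l k) *
            ((TT s y j + lam) + (TT s y k + lam) +
              c * (y l / (1 + lam * y l)) * ((TT s y j + lam) * (TT s y k + lam)))) =
        ∑ l ∈ s, ∑ j ∈ range s.card, ∑ k ∈ range s.card, w j * w k *
          (((TT s y j + lam) * ph s y l j) * (y l * ph s y l k + c / 2 * y l *
              (y l / (1 + lam * y l)) * ((TT s y k + lam) * ph s y l k)) +
            ((TT s y k + lam) * ph s y l k) * (y l * ph s y l j + c / 2 * y l *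
              (y l / (1 + lam * y l)) * ((TT s y j + lam) * ph s y l j))) := by
      rw [Finset.sum_comm (s := s)]
      refine Finset.sum_congr rfl (fun j _ => ?_)
      rw [Finset.sum_comm (s := s)]
      refine Finset.sum_congr rfl (fun k _ => ?_)
      rw [Finset.mul_sum]
      refine Finset.sum_congr rfl (fun l _ => ?_)
      ring
    rw [e]
    exact Finset.sum_eq_zero (fun l hl => null_form (hV l hl))
  have h5 : ∑ j ∈ range s.card, ∑ k ∈ range s.card, w j * w k * RL s y lam j k =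
      2 * lam * (∑ j ∈ range s.card, ∑ k ∈ range s.card, w j * w k * X2 (cf s y) j k) +
      (∑ j ∈ range s.card, ∑ k ∈ range s.card, w j * w k *
        ((TT s y j + TT s y k) * X2 (cf s y) j k)) +
      ((∑ j ∈ range s.card, ∑ k ∈ range s.card, w j * w k *
        ((∑ l ∈ s, y l * (ph s y l j * ph s y l k) *
            ((TT s y j + lam) + (TT s y k + lam) +
              c * (y l / (1 + lam * y l)) * ((TT s y j + lam) * (TT s y k + lam))))
          - ((j : ℝ) - k) * (TT s y j - TT s y k) * X2 (cf s y) j k)) -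
       ∑ j ∈ range s.card, ∑ k ∈ range s.card, w j * w k *
        (∑ l ∈ s, y l * (ph s y l j * ph s y l k) *
            ((TT s y j + lam) + (TT s y k + lam) +
              c * (y l / (1 + lam * y l)) * ((TT s y j + lam) * (TT s y k + lam))))) := by
    rw [Finset.mul_sum, ← Finset.sum_add_distrib, ← Finset.sum_sub_distrib,
      ← Finset.sum_add_distrib]
    refine Finset.sum_congr rfl (fun j _ => ?_)
    rw [Finset.mul_sum, ← Finset.sum_add_distrib, ← Finset.sum_sub_distrib,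
      ← Finset.sum_add_distrib]
    refine Finset.sum_congr rfl (fun k _ => ?_)
    unfold RL
    ring
  rw [h5, h4]
  have := mul_pos (mul_pos two_pos hlam) h3
  linarith

end Pool.Agent.R3F65
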