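import Mathlib
import Pool.Agent.B4.Start

/-!
# The start of the homotopy for a pair of sequences

For `a`, `b` in `PF n` the polynomial `∑ a_k b_k z^{2k} + a_k b_{k+1} z^{2k+1}` has no zeros in the
open right half plane.
-/

open Polynomial Finset

namespace Pool.Agent.R3F65

open Pool.Agent.H62LR B4

lemma mul_coeff2 (n s : ℕ) (a b : ℕ → ℝ) (z : ℂ) :
    (pA n b z * pB n a z).coeff (n + s) =
      ∑ k ∈ range (n + 1), if k + s ≤ n then
        ((a k * b (k + s) : ℝ) : ℂ) * z ^ (2 * k + s) else 0 := by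
  rw [coeff_mul, Finset.Nat.sum_antidiagonal_eq_sum_range_succ_mk]
  have e : (n + s).succ = s + (n + 1) := by omega
  rw [e, Finset.sum_range_add]
  have h0 : ∑ i ∈ range s, (pA n b z).coeff (i, n + s - i).1 *
      (pB n a z).coeff (i, n + s - i).2 = 0 := by
    refine Finset.sum_eq_zero (fun i hi => ?_)
    have := Finset.mem_range.mp hi
    rw [pB_coeff, if_neg (by show ¬ (n + s - i ≤ n); omega), mul_zero]
  rw [h0, zero_add]
  refine Finset.sum_congr rfl (fun k hk => ?_)
  have hk' : k ≤ n := by simpa [Nat.lt_succ_iff] using hk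
  show (pA n b z).coeff (s + k) * (pB n a z).coeff (n + s - (s + k)) = _
  rw [pA_coeff, pB_coeff, if_pos (by omega : n + s - (s + k) ≤ n)]
  have e2 : n - (n + s - (s + k)) = k := by omega
  rw [e2]
  by_cases h : k + s ≤ n
  · rw [if_pos (by omega), if_pos h, add_comm s k]
    push_cast
    ring
  · rw [if_neg (by omega), if_neg h, zero_mul]

/-- **The start of the homotopy.** -/
theorem start2 {n : ℕ} {a b : ℕ → ℝ} (ha : PF n a) (hb : PF n b) {z : ℂ} (hz : 0 < z.re) :
    ev (2 * n) (fun m => a (m / 2) * b ((m + 1) / 2)) z ≠ 0 := by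
  have hz0 : z ≠ 0 := fun h => by rw [h] at hz; simp at hz
  have hL : LeftZ (X + C 1 : ℂ[X]) := by
    refine ⟨X_add_C_ne_zero 1, fun u hu => ?_⟩
    rw [eval_add, eval_X, eval_C] at hu
    have : u = -1 := by linear_combination hu
    rw [this]; simp
  have hAB := (pA_left hb hz).mul (pB_left ha hz)
  -- the degree of the product
  have hc2 : (pA n b z * pB n a z).coeff (n + n) ≠ 0 := by
    rw [mul_coeff2]
    rw [Finset.sum_eq_single 0]
    · rw [if_pos (by omega)]
      refine mul_ne_zero ?_ (pow_ne_zero _ hz0)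
      have := mul_pos (ha.1 0 (Nat.zero_le _)) (hb.1 n le_rfl)
      rw [zero_add]
      exact_mod_cast this.ne'
    · intro k _ hk
      rw [if_neg (by omega)]
    · intro h
      simp at h
  have hdeg : n + n ≤ (pA n b z * pB n a z).natDegree := le_natDegree_of_ne_zero hc2
  have hQ := hL.mul hAB
  have hdegQ : n + 1 ≤ ((X + C 1) * (pA n b z * pB n a z)).natDegree := by
    rw [natDegree_mul hL.1 hAB.1, natDegree_X_add_C]
    omega
  have h := hQ.coeff_ne (n + 1) hdegQ
  rw [add_mul, coeff_add, coeff_X_mul, coeff_C_mul, one_mul] at h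
  have h0 := mul_coeff2 n 0 a b z
  rw [Nat.add_zero] at h0
  rw [h0, mul_coeff2 n 1 a b z] at h
  intro hzero
  apply h
  rw [ev_split] at hzero
  rw [Finset.sum_range_succ (n := n) (f := fun k => if k + 1 ≤ n then
        ((a k * b (k + 1) : ℝ) : ℂ) * z ^ (2 * k + 1) else 0), if_neg (by omega), add_zero,
    ← hzero]
  congr 1
  · refine Finset.sum_congr rfl (fun k hk => ?_)
    have hk' : k ≤ n := by simpa [Nat.lt_succ_iff] using hk
    rw [if_pos (by omega)]
    have e1 : 2 * k / 2 = k := by omega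
    have e2 : (2 * k + 1) / 2 = k := by omega
    simp only [e1, e2, Nat.add_zero]
  · refine Finset.sum_congr rfl (fun k hk => ?_)
    have hk' := Finset.mem_range.mp hk
    rw [if_pos (by omega)]
    have e1 : (2 * k + 1) / 2 = k := by omega
    have e2 : (2 * k + 1 + 1) / 2 = k + 1 := by omega
    simp only [e1, e2]

end Pool.Agent.R3F65
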