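import Mathlib
import Pool.Agent.B4.Reduce
import Pool.Agent.B4.BO1
import Pool.Agent.ST11.BPos
import Pool.Agent.ST50.Endgame
import Pool.Agent.R3F65.Start
import Pool.Agent.R3F65.WeightPos

/-!
# Base-3 certificate: two inequalities imply that all real powers `r ≥ 3` preserve `PF`
-/

open Finset

namespace Pool.Agent.R3F65

open Pool.Agent.H62LR B4

/-- `∑_{v ≤ k} (j + k + 1 - 2 v) a_v^2 a_{j+k+1-v}^2` -/
noncomputable def B2 (a : ℕ → ℝ) (j k : ℕ) : ℝ := MH (fun i => a i ^ 2) j k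

/-- `a_k^3` -/
def f3 (a : ℕ → ℝ) (k : ℕ) : ℝ := a k ^ 3

/-- `a_k a_{k+1}^2` -/
def g3 (a : ℕ → ℝ) (k : ℕ) : ℝ := a k * a (k + 1) ^ 2

/-- Bezoutian of `x ∑ a_k a_{k+1}^2 x^k` and `∑ a_k^3 x^k` -/
noncomputable def XH3 (a : ℕ → ℝ) (j k : ℕ) : ℝ := BZ (sh (g3 a)) (f3 a) j k

/-- Bezoutian of `∑ a_k^3 x^k` and `∑ a_k a_{k+1}^2 x^k` -/
noncomputable def ZH3 (a : ℕ → ℝ) (j k : ℕ) : ℝ := BZ (f3 a) (g3 a) j k

/-- condition (E3) in polynomial form -/
def E3 (a : ℕ → ℝ) (n : ℕ) (c : ℝ) : Prop :=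
  ∀ w : ℕ → ℝ, 0 ≤ ∑ j ∈ range n, ∑ k ∈ range n, w j * w k *
    ((a j * a (k + 1) + a (j + 1) * a k) * (a j * a k) * B2 a j k
      - c * ((j : ℝ) - k) * (a j * a (k + 1) - a (j + 1) * a k) * XH3 a j k)

/-- condition (O3) in polynomial form -/
def O3 (a : ℕ → ℝ) (n : ℕ) (c : ℝ) : Prop :=
  ∀ w : ℕ → ℝ, 0 ≤ ∑ j ∈ range n, ∑ k ∈ range n, w j * w k *
    (a j * a (k + 1) * B2 a (j + 1) k + a (j + 1) * a k * B2 a j (k + 1)
      + 2 * c * ZH3 a j k)

lemma BZ_symm (P Q : ℕ → ℝ) (j k : ℕ) : BZ P Q j k = BZ P Q k j := by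
  unfold BZ
  have hN : k + j + 1 = j + k + 1 := by omega
  rw [hN]
  apply antisymm_partial (fun i => (P (j + k + 1 - i) * Q i - P i * Q (j + k + 1 - i)))
    (j + k + 1) k j (by omega)
  intro v hv
  have h1 : j + k + 1 - (j + k + 1 - v) = v := by omega
  simp only [h1]
  ring

lemma XH3_symm (a : ℕ → ℝ) (j k : ℕ) : XH3 a j k = XH3 a k j := BZ_symm _ _ _ _
lemma ZH3_symm (a : ℕ → ℝ) (j k : ℕ) : ZH3 a j k = ZH3 a k j := BZ_symm _ _ _ _
lemma B2_symm (a : ℕ → ℝ) (j k : ℕ) : B2 a j k = B2 a k j := MH_symm _ _ _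

/-- normalised kernels -/
noncomputable def M2 (a : ℕ → ℝ) (j k : ℕ) : ℝ := KM (fun i => a i ^ 2) j k
noncomputable def X3 (a : ℕ → ℝ) (j k : ℕ) : ℝ := XH3 a j k / (a j ^ 3 * a k ^ 3)
noncomputable def Z3 (a : ℕ → ℝ) (j k : ℕ) : ℝ := ZH3 a j k / (g3 a j * g3 a k)

lemma M2_symm (a : ℕ → ℝ) (j k : ℕ) : M2 a j k = M2 a k j := KM_symm _ _ _
lemma X3_symm (a : ℕ → ℝ) (j k : ℕ) : X3 a j k = X3 a k j := by
  unfold X3; rw [XH3_symm, mul_comm (a j ^ 3)]
lemma Z3_symm (a : ℕ → ℝ) (j k : ℕ) : Z3 a j k = Z3 a k j := by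
  unfold Z3; rw [ZH3_symm, mul_comm (g3 a j)]

/-- `R_E` -/
noncomputable def RE3 (a : ℕ → ℝ) (c : ℝ) (j k : ℕ) : ℝ :=
  M2 a j k + c * ((k : ℝ) - j) * X3 a j k

/-- `R_O` -/
noncomputable def RO3 (a : ℕ → ℝ) (c : ℝ) (k i : ℕ) : ℝ :=
  a i / a (i + 1) * M2 a i (k + 1) + c * ((i : ℝ) + 1 - k) * Z3 a k i

lemma XZ3_rec (a : ℕ → ℝ) (j k : ℕ) (hj : a j ≠ 0) (hj1 : a (j + 1) ≠ 0) (hk : a k ≠ 0)
    (hk1 : a (k + 1) ≠ 0) :
    (a k / a (k + 1)) ^ 2 * X3 a (j + 1) k + a j / a (j + 1) * Z3 a k j = 1 := by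
  have h := BZ_rel (f3 a) (g3 a) k j
  rw [Z3_symm]
  unfold X3 Z3 XH3 ZH3
  have h2 : (a k / a (k + 1)) ^ 2 * (BZ (sh (g3 a)) (f3 a) (j + 1) k / (a (j + 1) ^ 3 * a k ^ 3))
      + a j / a (j + 1) * (BZ (f3 a) (g3 a) j k / (g3 a j * g3 a k))
      = (BZ (f3 a) (g3 a) j k + BZ (sh (g3 a)) (f3 a) (j + 1) k) / (f3 a (j + 1) * g3 a k) := by
    unfold g3 f3
    field_simp
    ring
  rw [h2, h]
  unfold f3 g3
  field_simp

lemma X3_zero (a : ℕ → ℝ) (k : ℕ) (h0 : a 0 ≠ 0) (hk : a k ≠ 0) (hk1 : a (k + 1) ≠ 0) :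
    (a k / a (k + 1)) ^ 2 * X3 a 0 k = 1 := by
  unfold X3
  rw [XH3_symm]
  unfold XH3
  rw [BZ_zero]
  simp only [sh_succ, sh_zero, zero_mul, sub_zero]
  unfold g3 f3
  field_simp

lemma null3_succ (a : ℕ → ℝ) (c : ℝ) (j k : ℕ) (hj : a j ≠ 0) (hj1 : a (j + 1) ≠ 0)
    (hk : a k ≠ 0) (hk1 : a (k + 1) ≠ 0) :
    (a k / a (k + 1)) ^ 2 * RE3 a c (j + 1) k - a j / a (j + 1) * RO3 a c k j
      = (- ((j : ℝ) + 1) * (1 + c)) + (((k : ℝ) + 1) + c * k) := by
  have h1 := KM_rec (fun i => a i ^ 2) j k (pow_ne_zero 2 hj) (pow_ne_zero 2 hj1)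
    (pow_ne_zero 2 hk) (pow_ne_zero 2 hk1)
  have h2 := XZ3_rec a j k hj hj1 hk hk1
  simp only [← div_pow] at h1
  unfold RE3 RO3 M2
  push_cast
  linear_combination h1 + c * ((k : ℝ) - (j + 1)) * h2

lemma null3_zero (a : ℕ → ℝ) (c : ℝ) (k : ℕ) (h0 : a 0 ≠ 0)
    (hk : a k ≠ 0) (hk1 : a (k + 1) ≠ 0) :
    (a k / a (k + 1)) ^ 2 * RE3 a c 0 k = ((k : ℝ) + 1) + c * k := by
  have h1 := KM_zero (fun i => a i ^ 2) k (pow_ne_zero 2 h0) (pow_ne_zero 2 hk)
    (pow_ne_zero 2 hk1)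
  have h2 := X3_zero a k h0 hk hk1
  simp only [← div_pow] at h1
  unfold RE3 M2
  push_cast
  linear_combination h1 + (c * (k : ℝ)) * h2

lemma RE3_top (a : ℕ → ℝ) (c : ℝ) (n k : ℕ) (h0 : ∀ i, n < i → a i = 0) :
    RE3 a c n k = 0 := by
  unfold RE3 M2
  rw [KM_top (fun i => a i ^ 2) n k (fun i hi => by simp [h0 i hi])]
  have hX : X3 a n k = 0 := by
    unfold X3 XH3 BZ
    rw [Finset.sum_eq_zero, zero_div]
    intro i hi
    have hi' := Finset.mem_range.mp hi
    have e1 : sh (g3 a) (n + k + 1 - i) = 0 := by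
      obtain ⟨m, hm⟩ : ∃ m, n + k + 1 - i = m + 1 := ⟨n + k - i, by omega⟩
      rw [hm, sh_succ]
      unfold g3
      rw [h0 (m + 1) (by omega)]
      ring
    have e2 : f3 a (n + k + 1 - i) = 0 := by
      unfold f3
      rw [h0 _ (by omega)]
      ring
    rw [e1, e2]
    ring
  rw [hX]
  ring

/-- the kernel `B2` is positive definite on `0, …, n-1` -/
lemma B2_pos {n : ℕ} {a : ℕ → ℝ} (ha : PF n a) (h0 : ∀ k, n < k → a k = 0) (w : ℕ → ℝ)
    (hw : ∃ k < n, w k ≠ 0) :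
    0 < ∑ j ∈ range n, ∑ k ∈ range n, w j * w k * B2 a j k := by
  obtain ⟨m, hcard, hpos, hprod⟩ := ha.exists_roots
  obtain ⟨y, hy1, hy2⟩ := Pool.Agent.ST50.exists_index m
  rw [hcard] at hy1 hy2
  have hy : ∀ l ∈ range n, 0 < y l := fun l hl => hpos _ (hy2 l hl)
  have hac : ∀ k, a k = a 0 * Pool.Agent.ST50.cf (range n) y k := by
    intro k
    rcases le_or_gt k n with hk | hk
    · have := congrArg (fun q => q.coeff k) hprod
      simp only [coeff_poly, if_pos hk, Polynomial.coeff_C_mul, hy1] at this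
      exact this
    · rw [h0 k hk, Pool.Agent.ST50.cf_eq_zero y (by rw [Finset.card_range]; exact hk), mul_zero]
  have h1 := Pool.Agent.ST11.bb_pos (range n) y hy w (by rw [Finset.card_range]; exact hw)
  rw [Finset.card_range] at h1
  have h2 : ∀ j k, B2 a j k = a 0 ^ 4 *
      Pool.Agent.ST11.bb (Pool.Agent.ST50.cf (range n) y) j k := by
    have key : ∀ j k, k ≤ j → B2 a j k = a 0 ^ 4 *
        Pool.Agent.ST11.bb (Pool.Agent.ST50.cf (range n) y) j k := by
      intro j k hkj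
      unfold B2 MH Pool.Agent.ST11.bb
      rw [min_eq_right hkj, Finset.mul_sum]
      refine Finset.sum_congr rfl (fun v _ => ?_)
      beta_reduce
      rw [hac v, hac (j + k + 1 - v)]
      push_cast
      ring
    intro j k
    rcases le_total k j with h | h
    · exact key j k h
    · rw [B2_symm, Pool.Agent.ST11.bb_comm]
      exact key k j h
  have h3 : ∑ j ∈ range n, ∑ k ∈ range n, w j * w k * B2 a j k = a 0 ^ 4 *
      ∑ j ∈ range n, ∑ k ∈ range n,
        Pool.Agent.ST11.bb (Pool.Agent.ST50.cf (range n) y) j k * (w j * w k) := by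
    rw [Finset.mul_sum]
    refine Finset.sum_congr rfl (fun j _ => ?_)
    rw [Finset.mul_sum]
    refine Finset.sum_congr rfl (fun k _ => ?_)
    rw [h2]
    ring
  rw [h3]
  exact mul_pos (pow_pos (ha.1 0 (Nat.zero_le _)) 4) h1

/-- **No common zero** for `3 ≤ r < 4`. -/
theorem no_common_zero3 {n : ℕ} {a : ℕ → ℝ} (ha : PF n a) (h0 : ∀ k, n < k → a k = 0)
    (hn : 0 < n) {c : ℝ} (hE3 : E3 a n c) (hO3 : O3 a n c)
    (θ : ℝ) (hθ0 : 0 ≤ θ) (hθ1 : θ < 1) (x : ℝ) (hx : 0 < x)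
    (hE : ∑ k ∈ range (n + 1), (-x) ^ k * (a k ^ 3 * a k ^ θ) = 0)
    (hO : ∑ k ∈ range n, (-x) ^ k * (a k * (a (k + 1) ^ 2 * a (k + 1) ^ θ)) = 0) :
    False := by
  set cE : ℕ → ℝ := fun k => (-x) ^ k * (a k ^ 3 * a k ^ θ) with hcE
  set cO : ℕ → ℝ := fun k => (-x) ^ k * (a k * (a (k + 1) ^ 2 * a (k + 1) ^ θ)) with hcO
  set T : ℕ → ℝ := fun k => a k / a (k + 1) with hTdef
  have hpos := ha.1
  have hT : ∀ k < n, 0 < T k := fun k hk => div_pos (hpos k hk.le) (hpos (k + 1) hk)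
  have key := pairing n (fun k => (a k / a (k + 1)) ^ 2) (fun j => a (j - 1) / a j)
    (RE3 a c) (RO3 a c)
    (fun j => - (j : ℝ) * (1 + c)) (fun k => ((k : ℝ) + 1) + c * k) x cE cO
    (fun k => (T k) ^ (-θ)) ?_ ?_ ?_ ?_ ?_ hE hO
  · -- positivity of the E part
    have hEpos : 0 < ∑ j ∈ range n, ∑ k ∈ range n,
        cE j * cE k * (RE3 a c j k * (T k) ^ (-θ)) := by
      apply weight_pos n T hT (RE3 a c) ?_ ?_ θ hθ0 hθ1
      · refine ⟨0, hn, ?_⟩
        simp only [hcE, pow_zero, one_mul]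
        have := hpos 0 (Nat.zero_le n)
        positivity
      · intro w hw
        obtain ⟨k0, hk0, hwk0⟩ := hw
        have h1 := B2_pos ha h0 (fun k => w k / a k ^ 2) ⟨k0, hk0,
          div_ne_zero hwk0 (pow_ne_zero 2 (hpos k0 hk0.le).ne')⟩
        rw [sum_symm n w (RE3 a c)]
        refine h1.trans_eq ?_
        apply Finset.sum_congr rfl; intro j hj
        apply Finset.sum_congr rfl; intro k hk
        have hj' := hpos j (Finset.mem_range.mp hj).le
        have hk' := hpos k (Finset.mem_range.mp hk).le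
        unfold RE3
        rw [M2_symm a k j, X3_symm a k j]
        unfold M2 KM B2
        field_simp
        ring
      · intro w
        have h1 := hE3 (fun k => w k / (a k ^ 3 * a (k + 1)))
        rw [sum_symm n w (fun j k => T j * RE3 a c j k)]
        have h2 : ∑ j ∈ range n, ∑ k ∈ range n, w j * w k *
            ((T j * RE3 a c j k + T k * RE3 a c k j) / 2)
            = (1 / 2) * ∑ j ∈ range n, ∑ k ∈ range n,
              (w j / (a j ^ 3 * a (j + 1))) * (w k / (a k ^ 3 * a (k + 1))) *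
              ((a j * a (k + 1) + a (j + 1) * a k) * (a j * a k) * B2 a j k
                - c * ((j : ℝ) - k) * (a j * a (k + 1) - a (j + 1) * a k) * XH3 a j k) := by
          rw [Finset.mul_sum]
          apply Finset.sum_congr rfl; intro j hj
          rw [Finset.mul_sum]
          apply Finset.sum_congr rfl; intro k hk
          have hj' := hpos j (Finset.mem_range.mp hj).le
          have hk' := hpos k (Finset.mem_range.mp hk).le
          have hj1 := hpos (j + 1) (Finset.mem_range.mp hj)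
          have hk1 := hpos (k + 1) (Finset.mem_range.mp hk)
          unfold RE3
          rw [M2_symm a k j, X3_symm a k j]
          unfold M2 KM B2 X3
          simp only [hTdef]
          field_simp
          ring
        show 0 ≤ ∑ j ∈ range n, ∑ k ∈ range n, w j * w k *
            ((T j * RE3 a c j k + T k * RE3 a c k j) / 2)
        rw [h2]
        exact mul_nonneg (by norm_num) h1
    have hOpos : 0 ≤ ∑ i ∈ range n, ∑ k ∈ range n, cO i * cO k * RO3 a c k i := by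
      have h1 := hO3 (fun k => cO k / g3 a k)
      have h2 : ∑ i ∈ range n, ∑ k ∈ range n, cO i * cO k * RO3 a c k i
          = (1 / 2) * ∑ i ∈ range n, ∑ k ∈ range n,
            (cO i / g3 a i) * (cO k / g3 a k) *
            (a i * a (k + 1) * B2 a (i + 1) k + a (i + 1) * a k * B2 a i (k + 1)
              + 2 * c * ZH3 a i k) := by
        rw [sum_symm n cO (fun i k => RO3 a c k i), Finset.mul_sum]
        apply Finset.sum_congr rfl; intro i hi
        rw [Finset.mul_sum]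
        apply Finset.sum_congr rfl; intro k hk
        have hj' := hpos i (Finset.mem_range.mp hi).le
        have hk' := hpos k (Finset.mem_range.mp hk).le
        have hj1 := hpos (i + 1) (Finset.mem_range.mp hi)
        have hk1 := hpos (k + 1) (Finset.mem_range.mp hk)
        unfold RO3
        rw [Z3_symm a k i, M2_symm a k (i + 1)]
        unfold M2 KM B2 Z3 g3
        field_simp
        ring
      rw [h2]
      exact mul_nonneg (by norm_num) h1
    have := mul_nonneg hx.le hOpos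
    linarith
  · -- null 0
    intro k hk
    have := null3_zero a c k (hpos 0 (Nat.zero_le n)).ne' (hpos k hk.le).ne'
      (hpos (k + 1) hk).ne'
    simp only [Nat.cast_zero, neg_zero, zero_mul, zero_add]
    exact this
  · intro j hj k hk
    have := null3_succ a c j k (hpos j hj.le).ne' (hpos (j + 1) hj).ne' (hpos k hk.le).ne'
      (hpos (k + 1) hk).ne'
    simp only [Nat.add_sub_cancel]
    rw [this]
    push_cast
    ring
  · intro k _
    exact RE3_top a c n k h0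
  · intro k hk
    have hak := hpos k hk.le
    have hak1 := hpos (k + 1) hk
    simp only [hcO, hcE, hTdef]
    rw [Real.div_rpow hak.le hak1.le, Real.rpow_neg hak.le, Real.rpow_neg hak1.le]
    have h1 : a k ^ θ ≠ 0 := (Real.rpow_pos_of_pos hak θ).ne'
    have h2 : a (k + 1) ^ θ ≠ 0 := (Real.rpow_pos_of_pos hak1 θ).ne'
    field_simp
  · intro j hj
    have hak := hpos j hj.le
    have hak1 := hpos (j + 1) hj
    simp only [hcO, hcE, Nat.add_sub_cancel]
    rw [pow_succ (-x) j]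
    field_simp

/-- the interval `[3, 4)` -/
theorem pf_lt4 {n : ℕ} {a : ℕ → ℝ} (ha : PF n a) (h0 : ∀ k, n < k → a k = 0)
    {c : ℝ} (hE3 : E3 a n c) (hO3 : O3 a n c) {r : ℝ} (hr3 : 3 ≤ r) (hr4 : r < 4) :
    PF n (fun k => a k ^ r) := by
  have h2 : PF n (fun k => a k ^ 2) := (pf_mul ha ha).congr (fun k _ => by ring)
  refine pf_interval_gen ha 1 3 r (fun z hz => ?_) (fun hn s hs x hx hE hO => ?_) r ⟨hr3, le_rfl⟩
  · have h1 := start2 ha h2 hz
    have e : ev (2 * n) (hcf 1 a 3) z =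
        ev (2 * n) (fun m => a (m / 2) * (fun k => a k ^ 2) ((m + 1) / 2)) z := by
      refine ev_congr (fun m _ => ?_) z
      unfold hcf
      rw [Real.rpow_one]
      have : (3 : ℝ) - 1 = (2 : ℕ) := by norm_num
      rw [this, Real.rpow_natCast]
    rw [e]
    exact h1
  · refine no_common_zero3 ha h0 hn hE3 hO3 (s - 3) (by linarith [hs.1])
      (by linarith [hs.2]) x hx ?_ ?_
    · rw [← hE]
      refine Finset.sum_congr rfl (fun k hk => ?_)
      have hak := ha.1 k (by have := Finset.mem_range.mp hk; omega)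
      congr 1
      rw [← Real.rpow_natCast, ← Real.rpow_add hak]
      congr 1; push_cast; ring
    · rw [← hO]
      refine Finset.sum_congr rfl (fun k hk => ?_)
      have hak1 := ha.1 (k + 1) (by have := Finset.mem_range.mp hk; omega)
      congr 1
      rw [Real.rpow_one, ← Real.rpow_natCast, ← Real.rpow_add hak1]
      congr 2; push_cast; ring

/-- all real powers `r ≥ 3`. -/
theorem pf_rpow3 {n : ℕ} {a : ℕ → ℝ} (ha : PF n a) (h0 : ∀ k, n < k → a k = 0)
    {c : ℝ} (hE3 : E3 a n c) (hO3 : O3 a n c) {r : ℝ} (hr3 : 3 ≤ r) :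
    PF n (fun k => a k ^ r) := by
  refine pf_all_of_interval ha (r0 := 3) (fun s hs => ?_) hr3
  rcases hs.2.lt_or_eq with h | h
  · exact pf_lt4 ha h0 hE3 hO3 hs.1 (by linarith)
  · have h4 := pf_npow ha 3
    refine h4.congr (fun k _ => ?_)
    rw [h]
    push_cast
    ring_nf

/-- **The base-3 reduction**: (E3) and (O3) for every `PF` sequence imply that `c t^r` preserves
real-rootedness for all real `r ≥ 3`. -/
theorem preserves_rpow3
    (H : ∀ (n : ℕ) (a : ℕ → ℝ), PF n a → (∀ k, n < k → a k = 0) →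
      ∃ c : ℝ, E3 a n c ∧ O3 a n c)
    {r : ℝ} (hr : 3 ≤ r) {c : ℝ} (hc : 0 < c) :
    Pool.Agent.H49.RR.Preserves (fun t => c * t ^ r) :=
  preserves_of_pf (fun n a ha h0 => by
    obtain ⟨d, h1, h2⟩ := H n a ha h0
    exact pf_rpow3 ha h0 h1 h2 hr) hc

end Pool.Agent.R3F65
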